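import Pool.Agent.N877.TF.Fin

/-!
# Ambiguous reduced forms and factorizations
-/

set_option autoImplicit false

namespace Pool.Agent.N877.TF

open Finset

/-- the factorizations `n = r s`, `r < s`, satisfying the genus condition -/
def AF (n : ℕ) (d : ℤ) : Finset ℕ := n.divisors.filter fun r => r * r < n ∧
  (∀ p ∈ r.primeFactors, jacobiSym (-(2 * d * ((n / r : ℕ) : ℤ))) p = 1) ∧
  (∀ p ∈ (n / r).primeFactors, jacobiSym (-(2 * d * (r : ℤ))) p = 1)

theorem jac_congr {p : ℕ} (h2 : ¬ p ∣ 2) (hp : p.Prime) {d w u t : ℤ} (ht : ¬ (p : ℤ) ∣ t)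
    (h : (p : ℤ) ∣ 4 * w - u * t ^ 2) :
    jacobiSym (-(2 * d * w)) p = jacobiSym (-(2 * d * u)) p := by
  have hcop : ∀ x : ℤ, ¬ (p : ℤ) ∣ x → jacobiSym (x ^ 2) p = 1 := by
    intro x hx
    apply jacobiSym.sq_one'
    have : IsCoprime x (p : ℤ) := by
      rw [isCoprime_comm]
      exact (Prime.coprime_iff_not_dvd (Nat.prime_iff_prime_int.1 hp)).2 hx
    exact Int.isCoprime_iff_gcd_eq_one.1 this
  have e1 : jacobiSym (-(2 * d * w)) p = jacobiSym (-(2 * d * (4 * w))) p := by
    have : -(2 * d * (4 * w)) = -(2 * d * w) * 2 ^ 2 := by ring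
    rw [this, jacobiSym.mul_left, hcop 2 (fun h => h2 (by exact_mod_cast h)), mul_one]
  have e2 : jacobiSym (-(2 * d * u)) p = jacobiSym (-(2 * d * (u * t ^ 2))) p := by
    have : -(2 * d * (u * t ^ 2)) = -(2 * d * u) * t ^ 2 := by ring
    rw [this, jacobiSym.mul_left, hcop t ht, mul_one]
  rw [e1, e2]
  apply jacobiSym.mod_left'
  refine Int.ModEq.symm (Int.modEq_iff_dvd.2 ?_)
  have : -(2 * d * (4 * w)) - -(2 * d * (u * t ^ 2)) = -(2 * d) * (4 * w - u * t ^ 2) := by ring
  rw [this]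
  exact Dvd.dvd.mul_left h _

/-- parity: only the ambiguous forms count -/
theorem card_parity {n : ℕ} (hodd : Odd n) (d : ℤ) :
    Odd ((Rd n).filter fun g => Gc n d g).card ↔
      Odd ((Rd n).filter fun g => Gc n d g ∧ (g.2.1 = g.1 ∨ g.1 = g.2.2)).card := by
  classical
  have hb0 : ∀ g ∈ Rd n, g.2.1 ≠ 0 := by
    intro g hg h0
    have h := (mem_Rd.1 hg).1
    rw [h0] at h
    obtain ⟨k, hk⟩ := hodd
    have : (2 : ℤ) ∣ 1 := ⟨2 * (g.1 * g.2.2) - k, by rw [hk] at h; push_cast at h; linarith⟩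
    norm_num at this
  have hsplit : ((Rd n).filter fun g => Gc n d g).card =
      ((Rd n).filter fun g => Gc n d g ∧ (g.2.1 = g.1 ∨ g.1 = g.2.2)).card +
      ((Rd n).filter fun g => Gc n d g ∧ ¬ (g.2.1 = g.1 ∨ g.1 = g.2.2)).card := by
    rw [← Finset.card_filter_add_card_filter_not (s := (Rd n).filter fun g => Gc n d g)
      (fun g => g.2.1 = g.1 ∨ g.1 = g.2.2), Finset.filter_filter, Finset.filter_filter]
  have heven : Even ((Rd n).filter fun g => Gc n d g ∧ ¬ (g.2.1 = g.1 ∨ g.1 = g.2.2)).card := by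
    have h0 : ∑ _g ∈ (Rd n).filter (fun g => Gc n d g ∧ ¬ (g.2.1 = g.1 ∨ g.1 = g.2.2)),
        (1 : ZMod 2) = 0 := by
      refine Finset.sum_involution (fun g _ => (g.1, -g.2.1, g.2.2)) ?_ ?_ ?_ ?_
      · intro g _; decide
      · rintro ⟨a, b, c⟩ hg _ h
        simp only [Prod.mk.injEq, true_and, and_true] at h
        exact hb0 _ (Finset.mem_filter.1 hg).1 (by simp only; omega)
      · rintro ⟨a, b, c⟩ hg
        obtain ⟨h1, h2, h3⟩ := Finset.mem_filter.1 hg
        rw [Finset.mem_filter]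
        have hR := mem_Rd.1 h1
        simp only at hR h2 h3 ⊢
        push Not at h3
        obtain ⟨r1, r2, r3, r4, r5, r6⟩ := hR
        refine ⟨mem_Rd.2 ⟨by rw [← r1]; ring, r2, by
          simp only; have := lt_of_le_of_ne r4 h3.1; linarith, by simp only; linarith, r5,
          fun h => absurd h h3.2⟩, ?_, ?_⟩
        · intro p hp
          rw [← h2 p hp]
          apply jacobiSym.mod_left'
          refine Int.ModEq.symm (Int.modEq_iff_dvd.2 ?_)
          have hpn : (p : ℤ) ∣ n := by exact_mod_cast Nat.dvd_of_mem_primeFactors hp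
          have hef : ((Int.gcd a n : ℕ) : ℤ) * ((n / Int.gcd a n : ℕ) : ℤ) = n := by
            have h1 : Int.gcd a n ∣ n := by
              have := Int.gcd_dvd_right a (n : ℤ)
              exact_mod_cast this
            exact_mod_cast Nat.mul_div_cancel' h1
          have : -(2 * d * vl n (a, -b, c)) - -(2 * d * vl n (a, b, c)) = n * (4 * d * b) := by
            simp only [vl]
            linear_combination (4 * d * b) * hef
          rw [this]
          exact Dvd.dvd.mul_right hpn _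
        · rintro (h | h)
          · linarith
          · exact h3.2 h
      · rintro ⟨a, b, c⟩ _
        simp
    rw [Finset.sum_const, nsmul_eq_mul, mul_one] at h0
    exact (ZMod.natCast_eq_zero_iff_even).1 h0
  rw [hsplit, Nat.odd_add]
  exact ⟨fun h => h.2 heven, fun h => ⟨fun _ => heven, fun _ => h⟩⟩

theorem AF_aux {n r s : ℕ} (hrs : r * s = n) (hsq : Squarefree n) (h4 : n % 4 = 3) :
    ∃ k : ℕ, r + s = 4 * k ∧ Nat.Coprime r s ∧ 0 < r ∧ 0 < s := by
  have hn0 : n ≠ 0 := hsq.ne_zero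
  have hr0 : r ≠ 0 := by rintro rfl; simp at hrs; exact hn0 hrs.symm
  have hs0 : s ≠ 0 := by rintro rfl; simp at hrs; exact hn0 hrs.symm
  refine ⟨(r + s) / 4, ?_, Nat.coprime_of_squarefree_mul (by rw [hrs]; exact hsq),
    Nat.pos_of_ne_zero hr0, Nat.pos_of_ne_zero hs0⟩
  have h1 : (r % 4) * (s % 4) % 4 = 3 := by rw [← Nat.mul_mod, hrs, h4]
  have h2 : r % 4 < 4 := Nat.mod_lt _ (by norm_num)
  have h3 : s % 4 < 4 := Nat.mod_lt _ (by norm_num)
  have h5 : (r + s) % 4 = 0 := by
    rw [Nat.add_mod]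
    interval_cases r % 4 <;> interval_cases s % 4 <;> simp_all
  omega

/-- the form attached to a factorization -/
def fo (n r : ℕ) : ℤ × ℤ × ℤ :=
  if 3 * r ≤ n / r then ((r : ℤ), (r : ℤ), (((r + n / r) / 4 : ℕ) : ℤ))
  else ((((r + n / r) / 4 : ℕ) : ℤ), 2 * (((r + n / r) / 4 : ℕ) : ℤ) - r,
    (((r + n / r) / 4 : ℕ) : ℤ))

theorem not_dvd_two {n p : ℕ} (h4 : n % 4 = 3) (hp : p.Prime) (hpn : p ∣ n) : ¬ p ∣ 2 := by
  intro h
  have := (Nat.prime_dvd_prime_iff_eq hp Nat.prime_two).1 h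
  subst this
  omega

theorem vl_fo {n r s k : ℕ} (hrs : r * s = n) (hsq : Squarefree n) (h4 : n % 4 = 3)
    (hk : r + s = 4 * k) (hr : 0 < r) (hcop : Nat.Coprime r s) (d : ℤ) (p : ℕ) (hp : p.Prime) :
    (p ∣ r → jacobiSym (-(2 * d * vl n (fo n r))) p = jacobiSym (-(2 * d * (s : ℤ))) p) ∧
    (p ∣ s → jacobiSym (-(2 * d * vl n (fo n r))) p = jacobiSym (-(2 * d * (r : ℤ))) p) := by
  have hnr : n / r = s := by rw [← hrs]; exact Nat.mul_div_cancel_left _ hr
  have hk4 : (r + s) / 4 = k := by omega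
  have hkZ : (r : ℤ) + s = 4 * k := by exact_mod_cast hk
  have hrsZ : (r : ℤ) * s = n := by exact_mod_cast hrs
  have e1 : ∀ q : ℕ, q.Prime → q ∣ r → ¬ q ∣ s := fun q hq h h' =>
    hq.one_lt.ne' (Nat.eq_one_of_dvd_coprimes hcop h h')
  have hnd : p ∣ r ∨ p ∣ s → ¬ p ∣ 2 := fun h => not_dvd_two h4 hp (by
    rw [← hrs]; rcases h with h | h
    · exact Dvd.dvd.mul_right h _
    · exact Dvd.dvd.mul_left h _)
  by_cases hc : 3 * r ≤ s
  · have hfo : fo n r = ((r : ℤ), (r : ℤ), (k : ℤ)) := by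
      unfold fo; rw [hnr, if_pos hc, hk4]
    have hg : Int.gcd (r : ℤ) n = r := by
      rw [Int.gcd_natCast_natCast, ← hrs]; exact Nat.gcd_mul_right_right r s |> fun _ => by simp
    have hvl : vl n (fo n r) = (r : ℤ) * r ^ 2 + r * (r * s) + k * s ^ 2 := by
      rw [hfo]; simp only [vl]; rw [hg, hnr]
    constructor
    · intro h
      have hrp : (p : ℤ) ∣ r := by exact_mod_cast h
      refine jac_congr (hnd (Or.inl h)) hp (t := s) (fun h' => e1 p hp h (by exact_mod_cast h')) ?_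
      rw [hvl]
      have : 4 * ((r : ℤ) * r ^ 2 + r * (r * s) + k * s ^ 2) - s * s ^ 2 =
          r * (4 * r ^ 2 + 4 * (r * s) + s ^ 2) := by
        linear_combination -(s : ℤ) ^ 2 * hkZ
      rw [this]
      exact Dvd.dvd.mul_right hrp _
    · intro h
      have hsp : (p : ℤ) ∣ s := by exact_mod_cast h
      have h2 := hnd (Or.inr h)
      refine jac_congr h2 hp (t := 2 * r) (fun h' => ?_) ?_
      · rcases (Nat.prime_iff_prime_int.1 hp).dvd_or_dvd h' with h'' | h''
        · exact h2 (by exact_mod_cast h'')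
        · exact e1 p hp (by exact_mod_cast h'') h
      · rw [hvl]
        have : 4 * ((r : ℤ) * r ^ 2 + r * (r * s) + k * s ^ 2) - r * (2 * r) ^ 2 =
            s * (4 * (r * r) + 4 * (k * s)) := by ring
        rw [this]
        exact Dvd.dvd.mul_right hsp _
  · have hfo : fo n r = ((k : ℤ), 2 * (k : ℤ) - r, (k : ℤ)) := by
      unfold fo; rw [hnr, if_neg hc, hk4]
    have hg : Int.gcd (k : ℤ) n = 1 := by
      rw [Int.gcd_natCast_natCast]
      by_contra hne
      obtain ⟨q, hq, hqd⟩ := Nat.exists_prime_and_dvd hne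
      have q1 : q ∣ k := hqd.trans (Nat.gcd_dvd_left _ _)
      have q2 : q ∣ n := hqd.trans (Nat.gcd_dvd_right _ _)
      have q3 : q ∣ r + s := by rw [hk]; exact Dvd.dvd.mul_left q1 _
      rw [← hrs, Nat.Prime.dvd_mul hq] at q2
      rcases q2 with q2 | q2
      · exact e1 q hq q2 ((Nat.dvd_add_right q2).1 q3)
      · exact e1 q hq ((Nat.dvd_add_left q2).1 q3) q2
    have hvl : vl n (fo n r) = (k : ℤ) + (2 * k - r) * n + k * n ^ 2 := by
      rw [hfo]; simp only [vl]; rw [hg]; simp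
    constructor
    · intro h
      have hrp : (p : ℤ) ∣ r := by exact_mod_cast h
      refine jac_congr (hnd (Or.inl h)) hp (t := 1) (fun h' => ?_) ?_
      · have : p ∣ 1 := by exact_mod_cast h'
        exact hp.one_lt.ne' (Nat.dvd_one.1 this)
      rw [hvl]
      have : 4 * ((k : ℤ) + (2 * k - r) * n + k * n ^ 2) - s * 1 ^ 2 =
          r * (1 + 4 * ((2 * k - r) * s + k * (n * s))) := by
        rw [← hrsZ]
        linear_combination -hkZ
      rw [this]
      exact Dvd.dvd.mul_right hrp _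
    · intro h
      have hsp : (p : ℤ) ∣ s := by exact_mod_cast h
      refine jac_congr (hnd (Or.inr h)) hp (t := 1) (fun h' => ?_) ?_
      · have : p ∣ 1 := by exact_mod_cast h'
        exact hp.one_lt.ne' (Nat.dvd_one.1 this)
      rw [hvl]
      have : 4 * ((k : ℤ) + (2 * k - r) * n + k * n ^ 2) - r * 1 ^ 2 =
          s * (1 + 4 * ((2 * k - r) * r + k * (n * r))) := by
        rw [← hrsZ]
        linear_combination -hkZ
      rw [this]
      exact Dvd.dvd.mul_right hsp _

theorem Gc_fo {n r : ℕ} (hr : r ∣ n) (hsq : Squarefree n) (h4 : n % 4 = 3) (d : ℤ) :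
    Gc n d (fo n r) ↔ (∀ p ∈ r.primeFactors, jacobiSym (-(2 * d * ((n / r : ℕ) : ℤ))) p = 1) ∧
      (∀ p ∈ (n / r).primeFactors, jacobiSym (-(2 * d * (r : ℤ))) p = 1) := by
  have hrs : r * (n / r) = n := Nat.mul_div_cancel' hr
  obtain ⟨k, hk, hcop, hr0, hs0⟩ := AF_aux hrs hsq h4
  have hpf : ∀ p, p ∈ n.primeFactors ↔ p ∈ r.primeFactors ∨ p ∈ (n / r).primeFactors := by
    intro p
    conv_lhs => rw [← hrs, Nat.primeFactors_mul hr0.ne' hs0.ne', Finset.mem_union]
  constructor
  · intro h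
    refine ⟨fun p hp => ?_, fun p hp => ?_⟩
    · rw [← (vl_fo hrs hsq h4 hk hr0 hcop d p (Nat.prime_of_mem_primeFactors hp)).1
        (Nat.dvd_of_mem_primeFactors hp)]
      exact h p ((hpf p).2 (Or.inl hp))
    · rw [← (vl_fo hrs hsq h4 hk hr0 hcop d p (Nat.prime_of_mem_primeFactors hp)).2
        (Nat.dvd_of_mem_primeFactors hp)]
      exact h p ((hpf p).2 (Or.inr hp))
  · rintro ⟨h1, h2⟩ p hp
    rcases (hpf p).1 hp with hp' | hp'
    · rw [(vl_fo hrs hsq h4 hk hr0 hcop d p (Nat.prime_of_mem_primeFactors hp')).1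
        (Nat.dvd_of_mem_primeFactors hp')]
      exact h1 p hp'
    · rw [(vl_fo hrs hsq h4 hk hr0 hcop d p (Nat.prime_of_mem_primeFactors hp')).2
        (Nat.dvd_of_mem_primeFactors hp')]
      exact h2 p hp'

/-- ambiguous reduced forms are factorizations -/
theorem card_amb {n : ℕ} (hsq : Squarefree n) (h4 : n % 4 = 3) (hn3 : n ≠ 3) (d : ℤ) :
    ((Rd n).filter fun g => Gc n d g ∧ (g.2.1 = g.1 ∨ g.1 = g.2.2)).card = (AF n d).card := by
  symm
  have hn0 : n ≠ 0 := hsq.ne_zero
  refine Finset.card_bij (fun r _ => fo n r) ?_ ?_ ?_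
  · intro r hr
    simp only [AF, mem_filter, Nat.mem_divisors] at hr
    obtain ⟨⟨hrn, -⟩, hlt, hG⟩ := hr
    have hrs : r * (n / r) = n := Nat.mul_div_cancel' hrn
    obtain ⟨k, hk, hcop, hr0, hs0⟩ := AF_aux hrs hsq h4
    have hGc := (Gc_fo hrn hsq h4 d).2 hG
    generalize hs : n / r = s at *
    have hrslt : r < s := by
      have : r * r < r * s := by rw [hrs]; exact hlt
      exact Nat.lt_of_mul_lt_mul_left this
    have hk4 : (r + s) / 4 = k := by omega
    have hkZ : (r : ℤ) + s = 4 * k := by exact_mod_cast hk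
    have hrsZ : (r : ℤ) * s = n := by exact_mod_cast hrs
    rw [mem_filter]
    refine ⟨mem_Rd.2 ?_, hGc, ?_⟩
    · by_cases hc : 3 * r ≤ s
      · have hfo : fo n r = ((r : ℤ), (r : ℤ), (k : ℤ)) := by
          unfold fo; rw [hs, if_pos hc, hk4]
        rw [hfo]
        simp only
        refine ⟨?_, by exact_mod_cast hr0, by omega, le_refl _, by omega, fun _ => by omega⟩
        rw [← hrsZ]; linear_combination -(r : ℤ) * hkZ
      · have hfo : fo n r = ((k : ℤ), 2 * (k : ℤ) - r, (k : ℤ)) := by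
          unfold fo; rw [hs, if_neg hc, hk4]
        rw [hfo]
        simp only
        refine ⟨?_, by omega, by omega, by omega, le_refl _, fun _ => by omega⟩
        rw [← hrsZ]; linear_combination -(r : ℤ) * hkZ
    · by_cases hc : 3 * r ≤ s
      · left; unfold fo; rw [hs, if_pos hc]
      · right; unfold fo; rw [hs, if_neg hc]
  · intro r hr r' hr' heq
    simp only [AF, mem_filter, Nat.mem_divisors] at hr hr'
    have key : ∀ r : ℕ, r ∣ n → r * r < n →
        ((fo n r).2.1 = (fo n r).1 → (r : ℤ) = (fo n r).1) ∧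
        ((fo n r).2.1 ≠ (fo n r).1 → (r : ℤ) = 2 * (fo n r).1 - (fo n r).2.1) := by
      intro r hrn hlt
      have hrs : r * (n / r) = n := Nat.mul_div_cancel' hrn
      obtain ⟨k, hk, hcop, hr0, hs0⟩ := AF_aux hrs hsq h4
      generalize hs : n / r = s at *
      have hk4 : (r + s) / 4 = k := by omega
      by_cases hc : 3 * r ≤ s
      · have hfo : fo n r = ((r : ℤ), (r : ℤ), (k : ℤ)) := by
          unfold fo; rw [hs, if_pos hc, hk4]
        rw [hfo]
        simp
      · have hfo : fo n r = ((k : ℤ), 2 * (k : ℤ) - r, (k : ℤ)) := by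
          unfold fo; rw [hs, if_neg hc, hk4]
        rw [hfo]
        simp only
        constructor
        · intro h; omega
        · intro _; ring
    obtain ⟨k1, k2⟩ := key r hr.1.1 hr.2.1
    obtain ⟨k1', k2'⟩ := key r' hr'.1.1 hr'.2.1
    rw [heq] at k1 k2
    have : (r : ℤ) = r' := by
      by_cases h : (fo n r').2.1 = (fo n r').1
      · rw [k1 h, k1' h]
      · rw [k2 h, k2' h]
    exact_mod_cast this
  · rintro ⟨a, b, c⟩ hg
    obtain ⟨h1, h2⟩ := mem_filter.1 hg
    have h3 := h2.2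
    obtain ⟨r1, r2, r3, r4, r5, r6⟩ := mem_Rd.1 h1
    simp only at r1 r2 r3 r4 r5 r6 h3
    have hb0 : b ≠ 0 := by
      rintro rfl
      have h5 : (n : ℤ) % 4 = 3 := by exact_mod_cast h4
      rw [← r1] at h5
      have : (4 * a * c - 0 ^ 2) = 4 * (a * c) := by ring
      rw [this] at h5
      omega
    -- the factorization
    obtain ⟨r, s, hr0, hrs, hlt, hfo⟩ : ∃ r s : ℕ, 0 < r ∧ r * s = n ∧ r < s ∧
        fo n r = (a, b, c) := by
      by_cases hba : b = a
      · subst hba
        obtain ⟨r, hr⟩ : ∃ r : ℕ, (r : ℤ) = b := ⟨b.toNat, Int.toNat_of_nonneg (by omega)⟩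
        obtain ⟨s, hs⟩ : ∃ s : ℕ, (s : ℤ) = 4 * c - b :=
          ⟨(4 * c - b).toNat, Int.toNat_of_nonneg (by omega)⟩
        have hrs : r * s = n := by
          have : (r : ℤ) * s = n := by rw [hr, hs, ← r1]; ring
          exact_mod_cast this
        have hr0 : 0 < r := by omega
        have hnr : n / r = s := by rw [← hrs]; exact Nat.mul_div_cancel_left _ hr0
        refine ⟨r, s, hr0, hrs, by omega, ?_⟩
        unfold fo
        rw [hnr, if_pos (by omega)]
        have : (((r + s) / 4 : ℕ) : ℤ) = c := by omega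
        rw [this, hr]
      · have hac : a = c := h3.resolve_left hba
        subst hac
        have hbp : 0 < b := lt_of_le_of_ne (r6 rfl) (Ne.symm hb0)
        have hbl : b < a := lt_of_le_of_ne r4 hba
        obtain ⟨r, hr⟩ : ∃ r : ℕ, (r : ℤ) = 2 * a - b :=
          ⟨(2 * a - b).toNat, Int.toNat_of_nonneg (by omega)⟩
        obtain ⟨s, hs⟩ : ∃ s : ℕ, (s : ℤ) = 2 * a + b :=
          ⟨(2 * a + b).toNat, Int.toNat_of_nonneg (by omega)⟩
        have hrs : r * s = n := by
          have : (r : ℤ) * s = n := by rw [hr, hs, ← r1]; ring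
          exact_mod_cast this
        have hr0 : 0 < r := by omega
        have hnr : n / r = s := by rw [← hrs]; exact Nat.mul_div_cancel_left _ hr0
        refine ⟨r, s, hr0, hrs, by omega, ?_⟩
        unfold fo
        rw [hnr, if_neg (by omega)]
        have : (((r + s) / 4 : ℕ) : ℤ) = a := by omega
        rw [this, hr]
        simp
    have hrn : r ∣ n := ⟨s, hrs.symm⟩
    refine ⟨r, ?_, hfo⟩
    simp only [AF, mem_filter, Nat.mem_divisors]
    refine ⟨⟨hrn, hn0⟩, ?_, (Gc_fo hrn hsq h4 d).1 (by rw [hfo]; exact h2.1)⟩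
    calc r * r < r * s := Nat.mul_lt_mul_of_pos_left hlt hr0
      _ = n := hrs

end Pool.Agent.N877.TF
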