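import Pool.Agent.N877.TF.Uniq

/-!
# Counting pairs with a given Gram matrix
-/

set_option autoImplicit false

namespace Pool.Agent.N877.TF

open Finset

variable (S : Co)

theorem Co.gram_det (x y z : V) :
    (S.B x x * S.B y y - S.B x y ^ 2) * S.B z z + 2 * S.B x y * S.B x z * S.B y z -
      S.B x x * S.B y z ^ 2 - S.B y y * S.B x z ^ 2 = S.d * dt (crs x y) z ^ 2 := by
  simp only [Co.B, Co.d, dt, crs0, crs1, crs2]
  ring

theorem nm_smul (k : ℤ) (v : V) : S.nm (k • v) = k ^ 2 * S.nm v := by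
  simp only [Co.nm, Pi.smul_apply, smul_eq_mul]; ring

/-- Bezout -/
theorem bez (c : V) (h : ∀ g : ℕ, (∀ i, (g : ℤ) ∣ c i) → g = 1) : ∃ y, dt c y = 1 := by
  have h1 : (Int.gcd (c 0) (c 1) : ℤ) = c 0 * Int.gcdA (c 0) (c 1) + c 1 * Int.gcdB (c 0) (c 1) :=
    Int.gcd_eq_gcd_ab _ _
  have h2 : (Int.gcd (Int.gcd (c 0) (c 1)) (c 2) : ℤ) =
      (Int.gcd (c 0) (c 1) : ℤ) * Int.gcdA (Int.gcd (c 0) (c 1)) (c 2) +
        c 2 * Int.gcdB (Int.gcd (c 0) (c 1)) (c 2) := Int.gcd_eq_gcd_ab _ _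
  have h3 : Int.gcd (Int.gcd (c 0) (c 1)) (c 2) = 1 := by
    apply h
    intro i
    fin_cases i
    · exact (Int.gcd_dvd_left _ _).trans (Int.gcd_dvd_left _ _)
    · exact (Int.gcd_dvd_left _ _).trans (Int.gcd_dvd_right _ _)
    · exact Int.gcd_dvd_right _ _
  rw [h3] at h2
  push_cast at h2
  generalize (Int.gcdA (Int.gcd (c 0) (c 1)) (c 2)) = r at h2
  generalize (Int.gcdB (Int.gcd (c 0) (c 1)) (c 2)) = t at h2
  generalize (Int.gcdA (c 0) (c 1)) = p at h1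
  generalize (Int.gcdB (c 0) (c 1)) = q at h1
  rw [h1] at h2
  refine ⟨![p * r, q * r, t], ?_⟩
  rw [dt]
  show c 0 * (p * r) + c 1 * (q * r) + c 2 * t = 1
  linarith

/-- vectors of squarefree norm are primitive -/
theorem prim_of_sqfree {n : ℕ} (hn : Squarefree n) {v : V} (h : S.nm v = n) :
    ∃ y, dt v y = 1 := by
  apply bez
  intro g hg
  choose w hw using hg
  have h0 : v = (g : ℤ) • w := funext fun i => by rw [Pi.smul_apply, smul_eq_mul]; exact hw i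
  have h1 : ((g * g : ℕ) : ℤ) ∣ (n : ℤ) := by
    rw [← h, h0, nm_smul]; push_cast
    exact ⟨S.nm w, by ring⟩
  have h2 : g * g ∣ n := by exact_mod_cast h1
  exact Nat.isUnit_iff.1 (hn g h2)

/-- pairs with a given Gram matrix -/
abbrev Co.PP (a b c : ℤ) : Type := {q : V × V // S.B q.1 q.1 = a ∧ S.B q.1 q.2 = b ∧
  S.B q.2 q.2 = c}

theorem B_add (x z y w : V) (k l : ℤ) : S.B x (z + k • y + l • w) =
    S.B x z + k * S.B x y + l * S.B x w := by
  simp only [Co.B, Pi.add_apply, Pi.smul_apply, smul_eq_mul]; ring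

theorem dt_add (v z y w : V) (k l : ℤ) : dt v (z + k • y + l • w) =
    dt v z + k * dt v y + l * dt v w := by
  simp only [dt, Pi.add_apply, Pi.smul_apply, smul_eq_mul]; ring

/-- the index set: square roots of `-2 a d` -/
def Iu (n : ℕ) (w : ℤ) : Finset ℕ := (range n).filter fun u => (n : ℤ) ∣ (u : ℤ) ^ 2 + w

theorem card_PP {τ : ℕ} (hT : S.Tors τ) (hτ : τ ≠ 0) {a b c : ℤ} {n : ℕ}
    (hn : 4 * a * c - b ^ 2 = n) (ha : 0 < a) (hsq : Squarefree n) (hodd : Odd n)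
    (hcop : IsCoprime a (n : ℤ)) :
    Nat.card (S.PP (2 * a) b (2 * c)) = τ * (Iu n (2 * a * S.d)).card := by
  have hn0 : 0 < n := Nat.pos_of_ne_zero hsq.ne_zero
  have hnZ : (0 : ℤ) < n := by exact_mod_cast hn0
  have hoddZ : Odd (4 * a * c - b ^ 2) := by rw [hn]; exact_mod_cast hodd
  -- `2 a` is prime to `n` and to `b`
  have h2n : IsCoprime (2 : ℤ) (n : ℤ) := by
    obtain ⟨k, hk⟩ := hodd
    refine ⟨-k, 1, ?_⟩
    rw [hk]; push_cast; ring
  have h2an : IsCoprime (2 * a) (n : ℤ) := h2n.mul_left hcop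
  have hab : IsCoprime (2 * a) b := by
    have h1 : IsCoprime (2 * a) (b ^ 2) := by
      obtain ⟨u, v, huv⟩ := h2an
      refine ⟨u + 2 * v * c, -v, ?_⟩
      rw [← hn] at huv
      linear_combination huv
    exact (IsCoprime.pow_right_iff (by norm_num)).1 h1
  obtain ⟨k2, k1', hk'⟩ := hab
  obtain ⟨k1, hk1⟩ : ∃ k1, k1 = -k1' := ⟨_, rfl⟩
  have hk : 2 * a * k2 - b * k1 = 1 := by rw [hk1]; linear_combination hk'
  clear hk' hk1
  set κ : ℤ := c * k1 ^ 2 - b * k1 * k2 + a * k2 ^ 2 with hκ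
  have hκ4 : 4 * a * κ = 1 + n * k1 ^ 2 := by
    have e1 : 4 * a * κ = (2 * a * k2 - b * k1) ^ 2 + (4 * a * c - b ^ 2) * k1 ^ 2 := by
      rw [hκ]; ring
    rw [e1, hk, hn]; ring
  have hdiv : ∀ u : ℤ, (n : ℤ) ∣ S.d + 2 * u ^ 2 * κ ↔ (n : ℤ) ∣ u ^ 2 + 2 * a * S.d := by
    intro u
    have e1 : 2 * a * (S.d + 2 * u ^ 2 * κ) = (u ^ 2 + 2 * a * S.d) + n * (k1 ^ 2 * u ^ 2) := by
      linear_combination u ^ 2 * hκ4
    constructor
    · intro h
      have h2 : (n : ℤ) ∣ 2 * a * (S.d + 2 * u ^ 2 * κ) := Dvd.dvd.mul_left h _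
      rw [e1] at h2
      exact (dvd_add_left (Dvd.intro _ rfl)).1 h2
    · intro h
      have h2 : (n : ℤ) ∣ 2 * a * (S.d + 2 * u ^ 2 * κ) := by
        rw [e1]; exact dvd_add h (Dvd.intro _ rfl)
      exact h2an.symm.dvd_of_dvd_mul_left h2
  -- the frames
  let r : ℤ → ℤ := fun u => (S.d + 2 * u ^ 2 * κ) / n
  have hr : ∀ u : ℤ, (n : ℤ) ∣ u ^ 2 + 2 * a * S.d → (n : ℤ) * r u = S.d + 2 * u ^ 2 * κ :=
    fun u hu => Int.mul_ediv_cancel' ((hdiv u).2 hu)
  have hfr : ∀ u : {u : ℕ // u ∈ Iu n (2 * a * S.d)},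
      Nat.card (S.Fr (2 * a) b (2 * c) (k1 * (u.1 : ℤ)) (k2 * (u.1 : ℤ)) (r (u.1 : ℤ))) = τ := by
    rintro ⟨u, hu⟩
    apply hT a b c _ _ _ ha (by rw [hn]; exact hnZ) hoddZ
    rw [hn, hr u (Finset.mem_filter.1 hu).2, hκ]
    ring
  haveI : ∀ u : {u : ℕ // u ∈ Iu n (2 * a * S.d)},
      Finite (S.Fr (2 * a) b (2 * c) (k1 * (u.1 : ℤ)) (k2 * (u.1 : ℤ)) (r (u.1 : ℤ))) := fun u =>
    Nat.finite_of_card_ne_zero (by rw [hfr u]; exact hτ)
  have hsig : Nat.card (Σ u : {u : ℕ // u ∈ Iu n (2 * a * S.d)},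
      S.Fr (2 * a) b (2 * c) (k1 * (u.1 : ℤ)) (k2 * (u.1 : ℤ)) (r (u.1 : ℤ))) =
      τ * (Iu n (2 * a * S.d)).card := by
    rw [Nat.card_sigma, Finset.sum_congr rfl (fun x _ => hfr x), Finset.sum_const, smul_eq_mul,
      Finset.card_univ, Fintype.card_coe, mul_comm]
  rw [← hsig]
  symm
  refine Nat.card_eq_of_bijective (fun t => (⟨(t.2.1.1, t.2.1.2.1), t.2.2.2.1, t.2.2.2.2.1,
    t.2.2.2.2.2.1⟩ : S.PP (2 * a) b (2 * c))) ⟨?_, ?_⟩
  · rintro ⟨⟨u, hu⟩, ⟨⟨x, y, z⟩, h1, h2, h3, h4, h5, h6, h7⟩⟩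
      ⟨⟨u', hu'⟩, ⟨⟨x', y', z'⟩, g1, g2, g3, g4, g5, g6, g7⟩⟩ heq
    have e0 := congrArg Subtype.val heq
    simp only [Prod.mk.injEq] at e0
    obtain ⟨rfl, rfl⟩ := e0
    simp only at h1 h2 h3 h4 h5 h6 h7 g1 g2 g3 g4 g5 g6 g7
    -- the difference of the third vectors
    obtain ⟨k, l, hkl⟩ := span_of (x := x) (y := y) (z := z) (u := z' - z) h1 (by
      have : dt (crs x y) (z' - z) = dt (crs x y) z' - dt (crs x y) z := by
        simp only [dt, Pi.sub_apply]; ring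
      rw [this, h1, g1]; ring)
    have hz' : z' = z + k • x + l • y := by
      rw [add_assoc, ← hkl]; abel
    rw [hz', B_add, h2, h3, h5] at g5
    rw [hz', B_add, S.B_comm y x, h3, h4, h6] at g6
    have hu1 : (u' : ℤ) - u = n * l := by
      rw [← hn]
      linear_combination -(2 * a) * g6 + b * g5 + ((u : ℤ) - u') * hk
    have hub : (u : ℤ) < n := by exact_mod_cast Finset.mem_range.1 (Finset.mem_filter.1 hu).1
    have hub' : (u' : ℤ) < n := by exact_mod_cast Finset.mem_range.1 (Finset.mem_filter.1 hu').1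
    have hl : l = 0 := by
      by_contra hne
      rcases lt_or_gt_of_ne hne with h | h
      · have : l ≤ -1 := by omega
        nlinarith
      · have : 1 ≤ l := by omega
        nlinarith
    subst hl
    have huu : u = u' := by
      have : (u' : ℤ) = u := by linarith
      exact_mod_cast this.symm
    subst huu
    have hk0 : k = 0 := by
      have : 2 * a * k = 0 := by linarith
      rcases mul_eq_zero.1 this with h | h
      · exfalso; linarith
      · exact h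
    subst hk0
    have : z' = z := by rw [hz']; simp
    subst this
    rfl
  · rintro ⟨⟨x, y⟩, h2, h3, h4⟩
    simp only at h2 h3 h4
    have hv : S.nm (crs x y) = n := by
      rw [S.lagrange, h2, h3, h4, ← hn]; ring
    obtain ⟨z0, hz0⟩ := prim_of_sqfree S hsq hv
    obtain ⟨u0, hu0⟩ : ∃ u0, u0 = 2 * a * S.B y z0 - b * S.B x z0 := ⟨_, rfl⟩
    obtain ⟨l, hl⟩ : ∃ l, l = u0 / n := ⟨_, rfl⟩
    have hmod := Int.emod_add_mul_ediv u0 n
    have hm0 := Int.emod_nonneg u0 hnZ.ne'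
    have hm1 := Int.emod_lt_of_pos u0 hnZ
    obtain ⟨u, hu⟩ : ∃ u : ℕ, (u : ℤ) = u0 % n := ⟨_, Int.toNat_of_nonneg hm0⟩
    rw [← hu] at hmod hm1
    rw [← hl] at hmod
    -- first adjustment
    obtain ⟨p1, hp1⟩ : ∃ p1, p1 = S.B x z0 - l * b := ⟨_, rfl⟩
    obtain ⟨q1, hq1⟩ : ∃ q1, q1 = S.B y z0 - l * (2 * c) := ⟨_, rfl⟩
    have hpq : 2 * a * q1 - b * p1 = u := by
      rw [hp1, hq1]
      linear_combination -hu0 - hmod - l * hn
    have hpq' : 2 * a * (q1 - k2 * u) = b * (p1 - k1 * u) := by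
      linear_combination hpq - (u : ℤ) * hk
    have hab : IsCoprime (2 * a) b := ⟨k2, -k1, by linear_combination hk⟩
    obtain ⟨m, hm⟩ : 2 * a ∣ p1 - k1 * u := hab.dvd_of_dvd_mul_left (Dvd.intro _ hpq')
    have hqm : q1 - k2 * u = b * m := by
      have h2a : (2 * a) ≠ 0 := by linarith
      apply mul_left_cancel₀ h2a
      rw [hpq', hm]; ring
    set z : V := z0 + (-l) • y + (-m) • x with hz
    have hB1 : S.B x z = k1 * u := by
      rw [hz, B_add, h2, h3]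
      linear_combination hm - hp1
    have hB2 : S.B y z = k2 * u := by
      rw [hz, B_add, S.B_comm y x, h3, h4]
      linear_combination hqm - hq1
    have hdz : dt (crs x y) z = 1 := by
      rw [hz, dt_add, dt_crs_left, dt_crs_right, hz0]; ring
    have hg := S.gram_det x y z
    rw [h2, h3, h4, hB1, hB2, hdz] at hg
    have hg' : (n : ℤ) * S.B z z = S.d + 2 * (u : ℤ) ^ 2 * κ := by
      rw [← hn, hκ]
      linear_combination hg
    have hmem : u ∈ Iu n (2 * a * S.d) := by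
      rw [Iu, Finset.mem_filter, Finset.mem_range]
      exact ⟨by exact_mod_cast hm1, (hdiv u).1 ⟨_, hg'.symm⟩⟩
    refine ⟨⟨⟨u, hmem⟩, ⟨(x, y, z), hdz, h2, h3, h4, hB1, hB2, ?_⟩⟩, rfl⟩
    have h5 := hr u (Finset.mem_filter.1 hmem).2
    have h6 : (n : ℤ) * S.B z z = n * r u := by rw [h5, hg']
    exact mul_left_cancel₀ hnZ.ne' h6

end Pool.Agent.N877.TF
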