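import Mathlib

/-!
# Positive definite ternary lattices and binary forms on orthogonal complements: definitions

`B` is a positive definite symmetric bilinear form on `ℤ³` given by its six coefficients, `nm` is the
adjugate form, so that `nm (x × y) = B x x * B y y - (B x y)²`.
-/

set_option autoImplicit false

namespace Pool.Agent.N877.TF

open Finset

/-- vectors -/
abbrev V := Fin 3 → ℤ

/-- cross product -/
def crs (v w : V) : V :=
  ![v 1 * w 2 - v 2 * w 1, v 2 * w 0 - v 0 * w 2, v 0 * w 1 - v 1 * w 0]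

/-- dot product -/
def dt (v w : V) : ℤ := v 0 * w 0 + v 1 * w 1 + v 2 * w 2

/-- the coefficients of a symmetric bilinear form -/
structure Co where
  s00 : ℤ
  s11 : ℤ
  s22 : ℤ
  s01 : ℤ
  s02 : ℤ
  s12 : ℤ

/-- the bilinear form -/
def Co.B (S : Co) (v w : V) : ℤ :=
  S.s00 * (v 0 * w 0) + S.s11 * (v 1 * w 1) + S.s22 * (v 2 * w 2) +
    S.s01 * (v 0 * w 1 + v 1 * w 0) + S.s02 * (v 0 * w 2 + v 2 * w 0) +
    S.s12 * (v 1 * w 2 + v 2 * w 1)

/-- the determinant -/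
def Co.d (S : Co) : ℤ := S.s00 * S.s11 * S.s22 + 2 * S.s01 * S.s02 * S.s12 -
  S.s00 * S.s12 ^ 2 - S.s11 * S.s02 ^ 2 - S.s22 * S.s01 ^ 2

/-- the adjugate form -/
def Co.nm (S : Co) (v : V) : ℤ :=
  (S.s11 * S.s22 - S.s12 ^ 2) * v 0 ^ 2 + (S.s00 * S.s22 - S.s02 ^ 2) * v 1 ^ 2 +
    (S.s00 * S.s11 - S.s01 ^ 2) * v 2 ^ 2 + 2 * (S.s02 * S.s12 - S.s01 * S.s22) * (v 0 * v 1) +
    2 * (S.s01 * S.s12 - S.s02 * S.s11) * (v 0 * v 2) +
    2 * (S.s01 * S.s02 - S.s12 * S.s00) * (v 1 * v 2)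

/-- the bilinear form is positive definite -/
def Co.Pos (S : Co) : Prop := ∀ v : V, v ≠ 0 → 0 < S.B v v

/-- triples of vectors with determinant one and given Gram matrix -/
def Co.Fr (S : Co) (a b c p q r : ℤ) : Type :=
  {t : V × V × V // dt (crs t.1 t.2.1) t.2.2 = 1 ∧ S.B t.1 t.1 = a ∧ S.B t.1 t.2.1 = b ∧
    S.B t.2.1 t.2.1 = c ∧ S.B t.1 t.2.2 = p ∧ S.B t.2.1 t.2.2 = q ∧ S.B t.2.2 t.2.2 = r}

/-- every Gram matrix of determinant `d` with the orthogonal complement of odd discriminant occurs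
`τ` times -/
def Co.Tors (S : Co) (τ : ℕ) : Prop := ∀ a b c p q r : ℤ, 0 < a → 0 < 4 * a * c - b ^ 2 →
  Odd (4 * a * c - b ^ 2) →
  (4 * a * c - b ^ 2) * r = S.d + 2 * (c * p ^ 2 - b * p * q + a * q ^ 2) →
  Nat.card (S.Fr (2 * a) b (2 * c) p q r) = τ

/-- reduced binary forms `a x² + b x y + c y²` of discriminant `-n` -/
def Red (n : ℤ) (a b c : ℤ) : Prop := 4 * a * c - b ^ 2 = n ∧ 0 < a ∧ -a < b ∧ b ≤ a ∧ a ≤ c ∧
  (a = c → 0 ≤ b)

end Pool.Agent.N877.TF
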