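import Pool.Agent.N877.TF.Sum

/-!
# The number of vectors and the number of reduced forms in one genus
-/

set_option autoImplicit false

namespace Pool.Agent.N877.TF

open Finset

theorem card_Iu {n : ℕ} (hsq : Squarefree n) (hodd : Odd n) {w : ℤ} (hw : 0 < w) :
    ((Iu n w).card : ℤ) = ∏ p ∈ n.primeFactors, (1 + jacobiSym (-w) p) := by
  obtain ⟨m, rfl⟩ : ∃ m : ℕ, w = m := ⟨w.toNat, (Int.toNat_of_nonneg hw.le).symm⟩
  have hm : 0 < m := by exact_mod_cast hw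
  have hn0 : 0 < n := Nat.pos_of_ne_zero hsq.ne_zero
  have h1 : (Iu n (m : ℤ)).card = Pool.Agent.Y155.Z7.R m n := by
    rw [Pool.Agent.Y155.Z7.R_eq m n hn0, Iu]
    congr 1
    ext u
    simp only [mem_filter]
    refine and_congr_right fun _ => ?_
    have : ((u : ℤ) ^ 2 + m) = ((u ^ 2 + m : ℕ) : ℤ) := by push_cast; ring
    rw [this, Int.natCast_dvd_natCast]
  have h2 : Pool.Agent.Y155.Z7.R m n = ∏ l ∈ n.primeFactors, Pool.Agent.Y155.Z7.R m l :=
    ((Pool.Agent.Y155.Z7.RA_mult m hm).prod_primeFactors hsq).symm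
  rw [h1, h2]
  push_cast
  refine Finset.prod_congr rfl fun l hl => ?_
  have hlp := Nat.prime_of_mem_primeFactors hl
  refine Pool.Agent.Y155.Z7.R_prime l hlp ?_ m
  rintro rfl
  have := Nat.dvd_of_mem_primeFactors hl
  obtain ⟨k, hk⟩ := hodd
  omega

/-- the genus condition -/
def Gc (n : ℕ) (d : ℤ) (g : ℤ × ℤ × ℤ) : Prop :=
  ∀ p ∈ n.primeFactors, jacobiSym (-(2 * d * vl n g)) p = 1

instance (n : ℕ) (d : ℤ) (g : ℤ × ℤ × ℤ) : Decidable (Gc n d g) := by
  unfold Gc; infer_instance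

theorem pos_val {a b c : ℤ} (ha : 0 < a) (hD : 0 < 4 * a * c - b ^ 2) {x y : ℤ}
    (h : x ≠ 0 ∨ y ≠ 0) : 0 < a * x ^ 2 + b * (x * y) + c * y ^ 2 := by
  have e : 4 * a * (a * x ^ 2 + b * (x * y) + c * y ^ 2) =
      (2 * a * x + b * y) ^ 2 + (4 * a * c - b ^ 2) * y ^ 2 := by ring
  have : 0 < 4 * a * (a * x ^ 2 + b * (x * y) + c * y ^ 2) := by
    rw [e]
    by_cases hy : y = 0
    · subst hy
      have hx : x ≠ 0 := by simpa using h
      have : 0 < (2 * a * x) ^ 2 := by positivity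
      simpa using this
    · have h1 : 0 < (4 * a * c - b ^ 2) * y ^ 2 := by positivity
      have h2 := sq_nonneg (2 * a * x + b * y)
      linarith
  by_contra hcon
  push Not at hcon
  nlinarith

variable (S : Co)

theorem card_PP_red {τ : ℕ} (hT : S.Tors τ) (hτ : τ ≠ 0) (hd : 0 < S.d) {n : ℕ}
    (hsq : Squarefree n) (hodd : Odd n) (hcop : IsCoprime S.d (n : ℤ)) {g : ℤ × ℤ × ℤ}
    (hg : g ∈ Rd n) : Nat.card (S.PP (2 * g.1) g.2.1 (2 * g.2.2)) =
      if Gc n S.d g then τ * 2 ^ n.primeFactors.card else 0 := by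
  obtain ⟨a, b, c⟩ := g
  have hR := mem_Rd.1 hg
  simp only at hR ⊢
  obtain ⟨hn, ha, -⟩ := hR
  have hn0 : 0 < n := Nat.pos_of_ne_zero hsq.ne_zero
  obtain ⟨h1, h2⟩ := gcd_facts hsq a
  set e : ℕ := Int.gcd a n with he
  set f : ℕ := n / e with hf
  -- the base change
  obtain ⟨s, q', hsq'⟩ : IsCoprime (e : ℤ) (f : ℤ) := Nat.isCoprime_iff_coprime.2 h2
  have hdet : (e : ℤ) * s - (-q') * f = 1 := by linear_combination hsq'
  have hv : vl n (a, b, c) = a * (e : ℤ) ^ 2 + b * ((e : ℤ) * f) + c * (f : ℤ) ^ 2 := rfl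
  rw [card_PP_change S hdet]
  have hnew : 4 * (a * (e : ℤ) ^ 2 + b * ((e : ℤ) * f) + c * (f : ℤ) ^ 2) *
      (a * (-q') ^ 2 + b * ((-q') * s) + c * s ^ 2) -
      (2 * a * ((e : ℤ) * (-q')) + b * ((e : ℤ) * s + (-q') * f) + 2 * c * ((f : ℤ) * s)) ^ 2 =
      n := by
    have : 4 * (a * (e : ℤ) ^ 2 + b * ((e : ℤ) * f) + c * (f : ℤ) ^ 2) *
      (a * (-q') ^ 2 + b * ((-q') * s) + c * s ^ 2) -
      (2 * a * ((e : ℤ) * (-q')) + b * ((e : ℤ) * s + (-q') * f) + 2 * c * ((f : ℤ) * s)) ^ 2 =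
      (4 * a * c - b ^ 2) * ((e : ℤ) * s - (-q') * f) ^ 2 := by ring
    rw [this, hdet, hn]; ring
  have hpos : 0 < a * (e : ℤ) ^ 2 + b * ((e : ℤ) * f) + c * (f : ℤ) ^ 2 := by
    apply pos_val ha (by rw [hn]; exact_mod_cast hn0)
    left
    intro h0
    rw [show e = 0 by exact_mod_cast h0, zero_mul] at h1
    omega
  have hcv := vl_coprime hsq (a := a) (b := b) (c := c) hn
  rw [hv] at hcv
  have hcard := card_PP S hT hτ hnew hpos hsq hodd hcv
  rw [show (f : ℤ) * s = (f : ℤ) * s from rfl] at hcard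
  rw [hcard]
  have hw : 0 < 2 * (a * (e : ℤ) ^ 2 + b * ((e : ℤ) * f) + c * (f : ℤ) ^ 2) * S.d := by positivity
  have h5 := card_Iu hsq hodd hw
  -- the symbols do not vanish
  have hJ : ∀ p ∈ n.primeFactors, jacobiSym (-(2 * S.d * vl n (a, b, c))) p = 1 ∨
      jacobiSym (-(2 * S.d * vl n (a, b, c))) p = -1 := by
    intro p hp
    have hpp := Nat.prime_of_mem_primeFactors hp
    have hpn := Nat.dvd_of_mem_primeFactors hp
    have hc2 : IsCoprime (2 : ℤ) (n : ℤ) := by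
      obtain ⟨k, hk⟩ := hodd
      refine ⟨-k, 1, ?_⟩
      rw [hk]; push_cast; ring
    have hall : IsCoprime (-(2 * S.d * vl n (a, b, c))) (p : ℤ) := by
      have h6 : IsCoprime (2 * S.d * vl n (a, b, c)) (n : ℤ) :=
        (hc2.mul_left hcop).mul_left (vl_coprime hsq hn)
      exact (h6.of_isCoprime_of_dvd_right (by exact_mod_cast hpn)).neg_left
    haveI : NeZero p := ⟨hpp.ne_zero⟩
    have h7 : jacobiSym (-(2 * S.d * vl n (a, b, c))) p ≠ 0 := by
      rw [Ne, jacobiSym.eq_zero_iff_not_coprime]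
      exact fun h => h (Int.isCoprime_iff_gcd_eq_one.1 hall)
    rcases jacobiSym.trichotomy (-(2 * S.d * vl n (a, b, c))) p with h | h | h
    · exact absurd h h7
    · exact Or.inl h
    · exact Or.inr h
  have harg : -(2 * (a * (e : ℤ) ^ 2 + b * ((e : ℤ) * f) + c * (f : ℤ) ^ 2) * S.d) =
      -(2 * S.d * vl n (a, b, c)) := by rw [hv]; ring
  rw [harg] at h5
  split_ifs with hG
  · congr 1
    have : ((Iu n (2 * (a * (e : ℤ) ^ 2 + b * ((e : ℤ) * f) + c * (f : ℤ) ^ 2) * S.d)).card : ℤ) =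
        ((2 ^ n.primeFactors.card : ℕ) : ℤ) := by
      rw [h5, Finset.prod_congr rfl (fun p hp => by rw [hG p hp])]
      rw [Finset.prod_const]; push_cast; norm_num
    exact_mod_cast this
  · have : ((Iu n (2 * (a * (e : ℤ) ^ 2 + b * ((e : ℤ) * f) + c * (f : ℤ) ^ 2) * S.d)).card : ℤ) =
        0 := by
      rw [h5, Finset.prod_eq_zero_iff]
      unfold Gc at hG
      push Not at hG
      obtain ⟨p, hp, hne⟩ := hG
      refine ⟨p, hp, ?_⟩
      rcases hJ p hp with h | h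
      · exact absurd h hne
      · rw [h]; norm_num
    have h8 : (Iu n (2 * (a * (e : ℤ) ^ 2 + b * ((e : ℤ) * f) + c * (f : ℤ) ^ 2) * S.d)).card =
        0 := by exact_mod_cast this
    rw [h8, mul_zero]

/-- the number of vectors -/
theorem card_vec {τ : ℕ} (hpos : S.Pos) (hT : S.Tors τ) (hτ : τ ≠ 0) (hd : 0 < S.d) {n : ℕ}
    (hsq : Squarefree n) (hodd : Odd n) (hn3 : n ≠ 3) (hcop : IsCoprime S.d (n : ℤ))
    {VV : Finset V} (hVV : ∀ v, v ∈ VV ↔ S.nm v = n)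
    (hev : ∀ v, S.nm v = n → ∀ u : V, dt v u = 0 → Even (S.B u u)) :
    2 * VV.card = τ * 2 ^ n.primeFactors.card * ((Rd n).filter fun g => Gc n S.d g).card := by
  rw [sum_PP S hpos hsq hodd hn3 hVV hev,
    Finset.sum_congr rfl (fun g hg => card_PP_red S hT hτ hd hsq hodd hcop hg),
    ← Finset.sum_filter, Finset.sum_const, smul_eq_mul, mul_comm]

end Pool.Agent.N877.TF
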