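import Pool.Agent.N877.TF.Defs

/-!
# Reduction of bases of orthogonal complements
-/

set_option autoImplicit false

namespace Pool.Agent.N877.TF

open Finset

theorem crs0 (v w : V) : crs v w 0 = v 1 * w 2 - v 2 * w 1 := rfl
theorem crs1 (v w : V) : crs v w 1 = v 2 * w 0 - v 0 * w 2 := rfl
theorem crs2 (v w : V) : crs v w 2 = v 0 * w 1 - v 1 * w 0 := rfl

theorem ext3 {v w : V} (h0 : v 0 = w 0) (h1 : v 1 = w 1) (h2 : v 2 = w 2) : v = w := by
  funext i
  fin_cases i
  · exact h0
  · exact h1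
  · exact h2

variable (S : Co)

theorem Co.lagrange (x y : V) : S.nm (crs x y) = S.B x x * S.B y y - S.B x y ^ 2 := by
  simp only [Co.nm, Co.B, crs0, crs1, crs2]; ring

theorem Co.B_comm (x y : V) : S.B x y = S.B y x := by
  simp only [Co.B]; ring

theorem Co.B_comb (x y : V) (p q r s : ℤ) : S.B (p • x + q • y) (r • x + s • y) =
    p * r * S.B x x + (p * s + q * r) * S.B x y + q * s * S.B y y := by
  simp only [Co.B, Pi.add_apply, Pi.smul_apply, smul_eq_mul]; ring

theorem crs_comb (x y : V) (p q r s : ℤ) : crs (p • x + q • y) (r • x + s • y) =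
    (p * s - q * r) • crs x y := by
  apply ext3 <;> simp only [crs0, crs1, crs2, Pi.add_apply, Pi.smul_apply, smul_eq_mul] <;> ring

theorem dt_comm (v w : V) : dt v w = dt w v := by simp only [dt]; ring

theorem dt_comb (v x y : V) (p q : ℤ) : dt v (p • x + q • y) = p * dt v x + q * dt v y := by
  simp only [dt, Pi.add_apply, Pi.smul_apply, smul_eq_mul]; ring

/-- every vector is a cross product -/
theorem exists_crs (v : V) : ∃ x y : V, crs x y = v := by
  by_cases hg : Int.gcd (v 0) (v 1) = 0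
  · rw [Int.gcd_eq_zero_iff] at hg
    refine ⟨![0, 1, 0], ![-v 2, 0, 0], ?_⟩
    apply ext3
    · simp [crs0, hg.1]
    · simp [crs1, hg.2]
    · simp [crs2]
  · have hg' : ((Int.gcd (v 0) (v 1) : ℕ) : ℤ) ≠ 0 := by exact_mod_cast hg
    obtain ⟨p, hp⟩ : ((Int.gcd (v 0) (v 1) : ℕ) : ℤ) ∣ v 0 := Int.gcd_dvd_left _ _
    obtain ⟨q, hq⟩ : ((Int.gcd (v 0) (v 1) : ℕ) : ℤ) ∣ v 1 := Int.gcd_dvd_right _ _
    have hb := Int.gcd_eq_gcd_ab (v 0) (v 1)
    generalize Int.gcdA (v 0) (v 1) = α at *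
    generalize Int.gcdB (v 0) (v 1) = β at *
    generalize ((Int.gcd (v 0) (v 1) : ℕ) : ℤ) = g at *
    have h1 : α * p + β * q = 1 := by
      apply mul_left_cancel₀ hg'
      rw [hp, hq] at hb
      linear_combination -hb
    refine ⟨![-q, p, 0], ![-α * v 2, -β * v 2, g], ?_⟩
    apply ext3
    · simp only [crs0]; simp; rw [hp]; ring
    · simp only [crs1]; simp; rw [hq]; ring
    · simp only [crs2]; simp; linear_combination (v 2) * h1

end Pool.Agent.N877.TF
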