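import Pool.Agent.N877.TF.Cnt
import Pool.Agent.Y155.Z7.XCa

/-!
# The number of vectors as a sum over the reduced forms
-/

set_option autoImplicit false

namespace Pool.Agent.N877.TF

open Finset

instance (n a b c : ℤ) : Decidable (Red n a b c) := by unfold Red; infer_instance

/-- the reduced forms -/
noncomputable def Rd (n : ℕ) : Finset (ℤ × ℤ × ℤ) :=
  (Icc (1 : ℤ) n ×ˢ Icc (-(n : ℤ)) n ×ˢ Icc (1 : ℤ) n).filter fun g => Red n g.1 g.2.1 g.2.2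

theorem Red.bounds {n a b c : ℤ} (h : Red n a b c) : 0 < a ∧ a ≤ n ∧ -n ≤ b ∧ b ≤ n ∧ 0 < c ∧
    c ≤ n := by
  obtain ⟨h1, h2, h3, h4, h5, -⟩ := h
  have h6 : b ^ 2 ≤ a * c := by nlinarith
  have h7 : 3 * (a * c) ≤ n := by nlinarith
  have h8 : c ≤ a * c := by nlinarith
  refine ⟨h2, by nlinarith, by nlinarith, by nlinarith, by linarith, by nlinarith⟩

theorem mem_Rd {n : ℕ} {g : ℤ × ℤ × ℤ} : g ∈ Rd n ↔ Red n g.1 g.2.1 g.2.2 := by
  rw [Rd, mem_filter]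
  constructor
  · exact fun h => h.2
  · intro h
    obtain ⟨h1, h2, h3, h4, h5, h6⟩ := h.bounds
    refine ⟨?_, h⟩
    simp only [mem_product, mem_Icc]
    exact ⟨⟨by omega, h2⟩, ⟨h3, h4⟩, ⟨by omega, h6⟩⟩

variable (S : Co)

theorem card_RB (hpos : S.Pos) {n : ℕ} (hsq : Squarefree n) (hodd : Odd n) (hn3 : n ≠ 3) {v : V}
    (hv : S.nm v = n) (hev : ∀ u : V, dt v u = 0 → Even (S.B u u)) :
    Nat.card {q : V × V // S.RB v q.1 q.2} = 2 := by
  have hoddZ : Odd (S.nm v) := by rw [hv]; exact_mod_cast hodd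
  have hv0 : v ≠ 0 := by
    rintro rfl
    have : S.nm 0 = 0 := by simp [Co.nm]
    rw [this] at hoddZ
    exact absurd hoddZ (by decide)
  have h3 : ∀ a : ℤ, S.nm v ≠ 3 * a ^ 2 := by
    intro a ha
    rw [hv] at ha
    have h1 : n = 3 * a.natAbs ^ 2 := by
      have : (n : ℤ) = ((3 * a.natAbs ^ 2 : ℕ) : ℤ) := by push_cast; rw [sq_abs]; exact ha
      exact_mod_cast this
    have h2 : a.natAbs * a.natAbs ∣ n := ⟨3, by rw [h1]; ring⟩
    have h4 := Nat.isUnit_iff.1 (hsq _ h2)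
    rw [h4] at h1
    exact hn3 (by rw [h1]; norm_num)
  obtain ⟨z, hz⟩ := prim_of_sqfree S hsq hv
  obtain ⟨x, y, hxy⟩ := rb_exists S hpos hv0 hev hoddZ
  rw [Nat.card_eq_two_iff]
  refine ⟨⟨(x, y), hxy⟩, ⟨(-x, -y), rb_neg S hxy⟩, ?_, ?_⟩
  · intro h
    have h1 := congrArg (fun q => q.1.1) h
    simp only at h1
    have hx0 : x = 0 := by
      funext i
      have := congrFun h1 i
      simp only [Pi.neg_apply] at this
      show x i = 0
      omega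
    apply hv0
    rw [← hxy.1, hx0]
    apply ext3 <;> simp [crs0, crs1, crs2]
  · rw [Set.eq_univ_iff_forall]
    rintro ⟨⟨x', y'⟩, hxy'⟩
    rcases rb_unique S hoddZ h3 hz hxy hxy' with ⟨rfl, rfl⟩ | ⟨rfl, rfl⟩
    · left; rfl
    · right; rfl

/-- pairs with a reduced Gram matrix -/
abbrev Co.ZZ (n : ℕ) : Type := {q : V × V // ∃ a b c : ℤ, S.B q.1 q.1 = 2 * a ∧ S.B q.1 q.2 = b ∧
  S.B q.2 q.2 = 2 * c ∧ Red n a b c}

theorem card_ZZ (hpos : S.Pos) {n : ℕ} (hsq : Squarefree n) (hodd : Odd n) (hn3 : n ≠ 3)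
    {VV : Finset V} (hVV : ∀ v, v ∈ VV ↔ S.nm v = n)
    (hev : ∀ v, S.nm v = n → ∀ u : V, dt v u = 0 → Even (S.B u u)) :
    Finite (S.ZZ n) ∧ Nat.card (S.ZZ n) = 2 * VV.card := by
  have h1 : ∀ v : {v // v ∈ VV}, Nat.card {q : V × V // S.RB v.1 q.1 q.2} = 2 := fun v =>
    card_RB S hpos hsq hodd hn3 ((hVV _).1 v.2) (hev _ ((hVV _).1 v.2))
  haveI : ∀ v : {v // v ∈ VV}, Finite {q : V × V // S.RB v.1 q.1 q.2} := fun v =>
    Nat.finite_of_card_ne_zero (by rw [h1 v]; norm_num)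
  have h2 : Nat.card (Σ v : {v // v ∈ VV}, {q : V × V // S.RB v.1 q.1 q.2}) = 2 * VV.card := by
    rw [Nat.card_sigma, Finset.sum_congr rfl (fun x _ => h1 x), Finset.sum_const, smul_eq_mul,
      Finset.card_univ, Fintype.card_coe, mul_comm]
  have eqv : S.ZZ n ≃ (Σ v : {v // v ∈ VV}, {q : V × V // S.RB v.1 q.1 q.2}) := by
    refine ⟨fun q => ⟨⟨crs q.1.1 q.1.2, ?_⟩, ⟨q.1, rfl, ?_⟩⟩,
      fun t => ⟨t.2.1, ?_⟩, ?_, ?_⟩
    · obtain ⟨a, b, c, e1, e2, e3, e4⟩ := q.2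
      rw [hVV, S.lagrange, e1, e2, e3, ← e4.1]; ring
    · obtain ⟨a, b, c, e1, e2, e3, e4⟩ := q.2
      refine ⟨a, b, c, e1, e2, e3, ?_⟩
      have : S.nm (crs q.1.1 q.1.2) = n := by rw [S.lagrange, e1, e2, e3, ← e4.1]; ring
      rw [this]; exact e4
    · obtain ⟨-, a, b, c, e1, e2, e3, e4⟩ := t.2.2
      have : S.nm t.1.1 = n := (hVV _).1 t.1.2
      rw [this] at e4
      exact ⟨a, b, c, e1, e2, e3, e4⟩
    · intro q
      rfl
    · rintro ⟨⟨v, hv⟩, ⟨⟨x, y⟩, hxy⟩⟩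
      have e := hxy.1
      simp only at e
      subst e
      rfl
  refine ⟨Finite.of_equiv _ eqv.symm, ?_⟩
  rw [← h2]
  exact Nat.card_congr eqv

theorem sum_PP (hpos : S.Pos) {n : ℕ} (hsq : Squarefree n) (hodd : Odd n) (hn3 : n ≠ 3)
    {VV : Finset V} (hVV : ∀ v, v ∈ VV ↔ S.nm v = n)
    (hev : ∀ v, S.nm v = n → ∀ u : V, dt v u = 0 → Even (S.B u u)) :
    2 * VV.card = ∑ g ∈ Rd n, Nat.card (S.PP (2 * g.1) g.2.1 (2 * g.2.2)) := by
  obtain ⟨hfin, h0⟩ := card_ZZ S hpos hsq hodd hn3 hVV hev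
  haveI : ∀ g : {g // g ∈ Rd n}, Finite (S.PP (2 * g.1.1) g.1.2.1 (2 * g.1.2.2)) := by
    intro g
    refine Finite.of_injective (fun q => (⟨q.1, g.1.1, g.1.2.1, g.1.2.2, q.2.1, q.2.2.1, q.2.2.2,
      mem_Rd.1 g.2⟩ : S.ZZ n)) ?_
    intro q q' h
    have e := congrArg Subtype.val h
    exact Subtype.ext e
  have h2 : Nat.card (Σ g : {g // g ∈ Rd n}, S.PP (2 * g.1.1) g.1.2.1 (2 * g.1.2.2)) =
      ∑ g ∈ Rd n, Nat.card (S.PP (2 * g.1) g.2.1 (2 * g.2.2)) := by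
    rw [Nat.card_sigma]
    exact Finset.sum_coe_sort (Rd n) (fun g => Nat.card (S.PP (2 * g.1) g.2.1 (2 * g.2.2)))
  rw [← h0, ← h2]
  symm
  refine Nat.card_eq_of_bijective (fun t => (⟨t.2.1, t.1.1.1, t.1.1.2.1, t.1.1.2.2, t.2.2.1,
    t.2.2.2.1, t.2.2.2.2, mem_Rd.1 t.1.2⟩ : S.ZZ n)) ⟨?_, ?_⟩
  · rintro ⟨⟨⟨a, b, c⟩, hg⟩, ⟨⟨x, y⟩, h1, h2, h3⟩⟩ ⟨⟨⟨a', b', c'⟩, hg'⟩, ⟨⟨x', y'⟩, g1, g2, g3⟩⟩ h
    have e := congrArg Subtype.val h
    simp only [Prod.mk.injEq] at e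
    obtain ⟨rfl, rfl⟩ := e
    simp only at h1 h2 h3 g1 g2 g3
    have ea : a = a' := by linarith
    have eb : b = b' := by linarith
    have ec : c = c' := by linarith
    subst ea eb ec
    rfl
  · rintro ⟨q, a, b, c, h1, h2, h3, h4⟩
    exact ⟨⟨⟨(a, b, c), mem_Rd.2 h4⟩, ⟨q, h1, h2, h3⟩⟩, rfl⟩

/-- invariance under base change -/
theorem card_PP_change {a b c p q r s : ℤ} (hdet : p * s - q * r = 1) :
    Nat.card (S.PP (2 * a) b (2 * c)) =
      Nat.card (S.PP (2 * (a * p ^ 2 + b * (p * r) + c * r ^ 2))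
        (2 * a * (p * q) + b * (p * s + q * r) + 2 * c * (r * s))
        (2 * (a * q ^ 2 + b * (q * s) + c * s ^ 2))) := by
  refine Nat.card_congr ⟨fun t => ⟨(p • t.1.1 + r • t.1.2, q • t.1.1 + s • t.1.2), ?_, ?_, ?_⟩,
    fun t => ⟨(s • t.1.1 + (-r) • t.1.2, (-q) • t.1.1 + p • t.1.2), ?_, ?_, ?_⟩, ?_, ?_⟩
  · simp only [S.B_comb, t.2.1, t.2.2.1, t.2.2.2]; ring
  · simp only [S.B_comb, t.2.1, t.2.2.1, t.2.2.2]; ring
  · simp only [S.B_comb, t.2.1, t.2.2.1, t.2.2.2]; ring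
  · simp only [S.B_comb, t.2.1, t.2.2.1, t.2.2.2]
    linear_combination (2 * a) * (p * s - q * r + 1) * hdet
  · simp only [S.B_comb, t.2.1, t.2.2.1, t.2.2.2]
    linear_combination b * (p * s - q * r + 1) * hdet
  · simp only [S.B_comb, t.2.1, t.2.2.1, t.2.2.2]
    linear_combination (2 * c) * (p * s - q * r + 1) * hdet
  · rintro ⟨⟨x, y⟩, h⟩
    apply Subtype.ext
    refine Prod.ext ?_ ?_
    · funext i
      simp only [Pi.add_apply, Pi.smul_apply, smul_eq_mul]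
      linear_combination x i * hdet
    · funext i
      simp only [Pi.add_apply, Pi.smul_apply, smul_eq_mul]
      linear_combination y i * hdet
  · rintro ⟨⟨x, y⟩, h⟩
    apply Subtype.ext
    refine Prod.ext ?_ ?_
    · funext i
      simp only [Pi.add_apply, Pi.smul_apply, smul_eq_mul]
      linear_combination x i * hdet
    · funext i
      simp only [Pi.add_apply, Pi.smul_apply, smul_eq_mul]
      linear_combination y i * hdet

/-- the value of the form at a point where it is prime to `n` -/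
def vl (n : ℕ) (g : ℤ × ℤ × ℤ) : ℤ :=
  g.1 * (Int.gcd g.1 n : ℤ) ^ 2 + g.2.1 * ((Int.gcd g.1 n : ℤ) * ((n / Int.gcd g.1 n : ℕ) : ℤ)) +
    g.2.2 * ((n / Int.gcd g.1 n : ℕ) : ℤ) ^ 2

theorem gcd_facts {n : ℕ} (hsq : Squarefree n) (a : ℤ) :
    Int.gcd a n * (n / Int.gcd a n) = n ∧ Nat.Coprime (Int.gcd a n) (n / Int.gcd a n) := by
  have h1 : Int.gcd a n ∣ n := by
    have := Int.gcd_dvd_right a (n : ℤ)
    exact_mod_cast this
  have h2 := Nat.mul_div_cancel' h1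
  exact ⟨h2, Nat.coprime_of_squarefree_mul (by rw [h2]; exact hsq)⟩

theorem vl_coprime {n : ℕ} (hsq : Squarefree n) {a b c : ℤ} (hn : 4 * a * c - b ^ 2 = n) :
    IsCoprime (vl n (a, b, c)) (n : ℤ) := by
  obtain ⟨h1, h2⟩ := gcd_facts hsq a
  have hn0 : n ≠ 0 := hsq.ne_zero
  rw [Int.isCoprime_iff_gcd_eq_one]
  have key : ∀ l : ℕ, l.Prime → l ∣ n → ¬ (l : ℤ) ∣ vl n (a, b, c) := by
    intro l hl hln hlv
    have hlZ : Prime (l : ℤ) := Nat.prime_iff_prime_int.1 hl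
    have hlnZ : (l : ℤ) ∣ n := by exact_mod_cast hln
    simp only [vl] at hlv
    by_cases hla : (l : ℤ) ∣ a
    · -- `l` divides `a`
      have hle : l ∣ Int.gcd a n := Int.dvd_gcd hla hlnZ
      have hlf : ¬ l ∣ n / Int.gcd a n := fun h =>
        hl.one_lt.ne' (Nat.eq_one_of_dvd_coprimes h2 hle h)
      have hlb : (l : ℤ) ∣ b := by
        have : (l : ℤ) ∣ b ^ 2 := by
          have e : b ^ 2 = a * (4 * c) - n := by rw [← hn]; ring
          rw [e]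
          exact dvd_sub (Dvd.dvd.mul_right hla _) hlnZ
        exact hlZ.dvd_of_dvd_pow this
      have hlc : ¬ (l : ℤ) ∣ c := by
        intro hlc
        obtain ⟨a1, ha1⟩ := hla
        obtain ⟨b1, hb1⟩ := hlb
        obtain ⟨c1, hc1⟩ := hlc
        have : ((l * l : ℕ) : ℤ) ∣ (n : ℤ) := ⟨4 * a1 * c1 - b1 ^ 2, by
          rw [← hn, ha1, hb1, hc1]; push_cast; ring⟩
        have h3 : l * l ∣ n := by exact_mod_cast this
        exact hl.one_lt.ne' (Nat.isUnit_iff.1 (hsq l h3))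
      have h5 : (l : ℤ) ∣ c * ((n / Int.gcd a n : ℕ) : ℤ) ^ 2 := by
        have h6 : (l : ℤ) ∣ a * (Int.gcd a n : ℤ) ^ 2 + b * ((Int.gcd a n : ℤ) *
            ((n / Int.gcd a n : ℕ) : ℤ)) :=
          dvd_add (Dvd.dvd.mul_right hla _) (Dvd.dvd.mul_right hlb _)
        exact (dvd_add_right h6).1 hlv
      rcases hlZ.dvd_or_dvd h5 with h6 | h6
      · exact hlc h6
      · exact hlf (by exact_mod_cast hlZ.dvd_of_dvd_pow h6)
    · have hlf : l ∣ n / Int.gcd a n := by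
        have h3 : l ∣ Int.gcd a n * (n / Int.gcd a n) := by rw [h1]; exact hln
        rcases (Nat.Prime.dvd_mul hl).1 h3 with h4 | h4
        · exfalso
          apply hla
          have h5 : ((Int.gcd a n : ℕ) : ℤ) ∣ a := Int.gcd_dvd_left _ _
          exact dvd_trans (by exact_mod_cast h4) h5
        · exact h4
      have hlfZ : (l : ℤ) ∣ ((n / Int.gcd a n : ℕ) : ℤ) := by exact_mod_cast hlf
      have hle : ¬ (l : ℤ) ∣ (Int.gcd a n : ℤ) := by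
        intro h
        have h' : l ∣ Int.gcd a n := by exact_mod_cast h
        exact hl.one_lt.ne' (Nat.eq_one_of_dvd_coprimes h2 h' hlf)
      have h5 : (l : ℤ) ∣ a * (Int.gcd a n : ℤ) ^ 2 := by
        have h6 : (l : ℤ) ∣ b * ((Int.gcd a n : ℤ) * ((n / Int.gcd a n : ℕ) : ℤ)) +
            c * ((n / Int.gcd a n : ℕ) : ℤ) ^ 2 :=
          dvd_add (Dvd.dvd.mul_left (Dvd.dvd.mul_left hlfZ _) _)
            (Dvd.dvd.mul_left (Dvd.dvd.pow hlfZ two_ne_zero) _)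
        have e : a * (Int.gcd a n : ℤ) ^ 2 + b * ((Int.gcd a n : ℤ) *
            ((n / Int.gcd a n : ℕ) : ℤ)) + c * ((n / Int.gcd a n : ℕ) : ℤ) ^ 2 =
            a * (Int.gcd a n : ℤ) ^ 2 + (b * ((Int.gcd a n : ℤ) *
            ((n / Int.gcd a n : ℕ) : ℤ)) + c * ((n / Int.gcd a n : ℕ) : ℤ) ^ 2) := by ring
        rw [e] at hlv
        exact (dvd_add_left h6).1 hlv
      rcases hlZ.dvd_or_dvd h5 with h6 | h6
      · exact hla h6
      · exact hle (hlZ.dvd_of_dvd_pow h6)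
  by_contra hne
  obtain ⟨l, hl, hld⟩ := Nat.exists_prime_and_dvd hne
  have hldZ : (l : ℤ) ∣ ((Int.gcd (vl n (a, b, c)) n : ℕ) : ℤ) := by exact_mod_cast hld
  have h3 : (l : ℤ) ∣ vl n (a, b, c) := hldZ.trans (Int.gcd_dvd_left _ _)
  have h4 : (l : ℤ) ∣ (n : ℤ) := hldZ.trans (Int.gcd_dvd_right _ _)
  exact key l hl (by exact_mod_cast h4) h3

end Pool.Agent.N877.TF
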