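import Pool.Agent.N877.TF.Red

/-!
# Uniqueness of reduced bases
-/

set_option autoImplicit false

namespace Pool.Agent.N877.TF

theorem small_pr {a p r : ℤ} (ha : 0 < a) (h : a * (p ^ 2 - |p * r| + r ^ 2) ≤ a) :
    |p| ≤ 1 ∧ |r| ≤ 1 := by
  have h1 : p ^ 2 - |p * r| + r ^ 2 ≤ 1 := by
    by_contra hc
    push Not at hc
    nlinarith
  rw [abs_mul] at h1
  have hp : p ^ 2 = |p| ^ 2 := (sq_abs p).symm
  have hr : r ^ 2 = |r| ^ 2 := (sq_abs r).symm
  rw [hp, hr] at h1
  have p0 := abs_nonneg p
  have r0 := abs_nonneg r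
  generalize |p| = P at *
  generalize |r| = R at *
  constructor
  · by_contra hc
    push Not at hc
    nlinarith [sq_nonneg (2 * R - P)]
  · by_contra hc
    push Not at hc
    nlinarith [sq_nonneg (2 * P - R)]

theorem red_unique {n a b c a' b' c' p q r s : ℤ} (hn : Odd n) (hn3 : n ≠ 3 * a ^ 2)
    (hR : Red n a b c) (hR' : Red n a' b' c') (hdet : p * s - q * r = 1)
    (ha : a' = a * p ^ 2 + b * (p * r) + c * r ^ 2)
    (hb : b' = 2 * a * (p * q) + b * (p * s + q * r) + 2 * c * (r * s))
    (hc : c' = a * q ^ 2 + b * (q * s) + c * s ^ 2) (hle : a' ≤ a) :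
    (p = 1 ∧ q = 0 ∧ r = 0 ∧ s = 1) ∨ (p = -1 ∧ q = 0 ∧ r = 0 ∧ s = -1) := by
  obtain ⟨h1, h2, h3, h4, h5, h6⟩ := hR
  obtain ⟨g1, g2, g3, g4, g5, g6⟩ := hR'
  have hpr : |p| ≤ 1 ∧ |r| ≤ 1 := by
    apply small_pr h2
    refine le_trans ?_ hle
    rw [ha]
    have e1 : -(a * |p * r|) ≤ b * (p * r) := by
      have e2 : |b * (p * r)| ≤ a * |p * r| := by
        rw [abs_mul]
        refine mul_le_mul_of_nonneg_right ?_ (abs_nonneg _)
        rw [abs_le]
        exact ⟨by linarith, h4⟩
      have e3 := neg_abs_le (b * (p * r))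
      linarith
    have e4 : a * r ^ 2 ≤ c * r ^ 2 := mul_le_mul_of_nonneg_right h5 (sq_nonneg r)
    nlinarith
  obtain ⟨hp, hr⟩ := hpr
  rw [abs_le] at hp hr
  obtain ⟨p1, p2⟩ := hp
  obtain ⟨r1, r2⟩ := hr
  have hbo : b ≠ 0 := by
    rintro rfl
    obtain ⟨k, hk⟩ := hn
    have : (2 : ℤ) ∣ 1 := ⟨2 * (a * c) - k, by linear_combination -h1 - hk⟩
    norm_num at this
  have key : ∀ t : ℤ, -a < b + 2 * a * t → b + 2 * a * t ≤ a → t = 0 := by
    intro t t1 t2
    by_contra hne
    rcases lt_or_gt_of_ne hne with h | h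
    · have : t ≤ -1 := by omega
      nlinarith
    · have : 1 ≤ t := by omega
      nlinarith
  have key2 : a = c → ∀ t : ℤ, a' = a → c' = a - b * t + a * t ^ 2 → b' = -b + 2 * a * t →
      False := by
    intro hac t ha' hc' hb'
    have hb0 : 0 < b := lt_of_le_of_ne (h6 hac) (Ne.symm hbo)
    have ht1 : t < 2 := by
      by_contra hcon
      push Not at hcon
      nlinarith
    have ht2 : -1 < t := by
      by_contra hcon
      push Not at hcon
      nlinarith
    have ht : t = 0 ∨ t = 1 := by omega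
    rcases ht with rfl | rfl
    · have := g6 (by rw [ha', hc']; ring)
      rw [hb'] at this
      linarith
    · have hba : b = a := by linarith
      apply hn3
      rw [← h1, ← hac, hba]; ring
  have cp : p = -1 ∨ p = 0 ∨ p = 1 := by omega
  have cr : r = -1 ∨ r = 0 ∨ r = 1 := by omega
  rcases cp with rfl | rfl | rfl <;> rcases cr with rfl | rfl | rfl
  · exfalso
    have : c ≤ -b := by nlinarith
    linarith
  · right
    have hs : s = -1 := by linarith
    subst hs
    have := key (-q) (by nlinarith) (by nlinarith)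
    refine ⟨rfl, by omega, rfl, rfl⟩
  · exfalso
    have hcb : c ≤ b := by nlinarith
    apply hn3
    have e1 : b = a := by linarith
    have e2 : c = a := by linarith
    rw [← h1, e1, e2]; ring
  · exfalso
    have hq : q = 1 := by linarith
    subst hq
    have hca : c ≤ a := by nlinarith
    have hac : a = c := by linarith
    exact key2 hac (-s) (by rw [ha, hac]; ring) (by rw [hc, hac]; ring) (by rw [hb, hac]; ring)
  · exfalso
    simp at hdet
  · exfalso
    have hq : q = -1 := by linarith
    subst hq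
    have hca : c ≤ a := by nlinarith
    have hac : a = c := by linarith
    exact key2 hac s (by rw [ha, hac]; ring) (by rw [hc, hac]; ring) (by rw [hb, hac]; ring)
  · exfalso
    have hcb : c ≤ b := by nlinarith
    apply hn3
    have e1 : b = a := by linarith
    have e2 : c = a := by linarith
    rw [← h1, e1, e2]; ring
  · left
    have hs : s = 1 := by linarith
    subst hs
    have := key q (by nlinarith) (by nlinarith)
    exact ⟨rfl, this, rfl, rfl⟩
  · exfalso
    have : c ≤ -b := by nlinarith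
    linarith

variable (S : Co)

theorem cramer (x y z u : V) : dt (crs x y) z • u =
    (dt u (crs y z)) • x + (dt u (crs z x)) • y + (dt u (crs x y)) • z := by
  apply ext3 <;> simp only [dt, crs0, crs1, crs2, Pi.add_apply, Pi.smul_apply, smul_eq_mul] <;> ring

theorem dt_crs_left (v w : V) : dt (crs v w) v = 0 := by
  simp only [dt, crs0, crs1, crs2]; ring

theorem dt_crs_right (v w : V) : dt (crs v w) w = 0 := by
  simp only [dt, crs0, crs1, crs2]; ring

/-- the orthogonal complement of a primitive vector is spanned by every basis -/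
theorem span_of {x y z u : V} (hz : dt (crs x y) z = 1) (hu : dt (crs x y) u = 0) :
    ∃ p q : ℤ, u = p • x + q • y := by
  refine ⟨dt u (crs y z), dt u (crs z x), ?_⟩
  have h := cramer x y z u
  rw [hz, one_smul, dt_comm u (crs x y), hu, zero_smul, add_zero] at h
  exact h

theorem crs_neg_neg (x y : V) : crs (-x) (-y) = crs x y := by
  apply ext3 <;> simp only [crs0, crs1, crs2, Pi.neg_apply] <;> ring

theorem B_neg_neg (x y : V) : S.B (-x) (-y) = S.B x y := by
  simp only [Co.B, Pi.neg_apply]; ring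

/-- bases with reduced Gram matrix -/
def Co.RB (S : Co) (v x y : V) : Prop := crs x y = v ∧ ∃ a b c : ℤ, S.B x x = 2 * a ∧ S.B x y = b ∧
  S.B y y = 2 * c ∧ Red (S.nm v) a b c

theorem rb_neg {v x y : V} (h : S.RB v x y) : S.RB v (-x) (-y) := by
  obtain ⟨h1, a, b, c, h2, h3, h4, h5⟩ := h
  exact ⟨by rw [crs_neg_neg, h1], a, b, c, by rw [B_neg_neg, h2], by rw [B_neg_neg, h3],
    by rw [B_neg_neg, h4], h5⟩

theorem rb_unique {v x y x' y' z : V} (hn : Odd (S.nm v)) (hn3 : ∀ a : ℤ, S.nm v ≠ 3 * a ^ 2)
    (hz : dt v z = 1) (h : S.RB v x y) (h' : S.RB v x' y') :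
    (x' = x ∧ y' = y) ∨ (x' = -x ∧ y' = -y) := by
  have main : ∀ x y x' y' : V, S.RB v x y → S.RB v x' y' → S.B x' x' ≤ S.B x x →
      (x' = x ∧ y' = y) ∨ (x' = -x ∧ y' = -y) := by
    rintro x y x' y' ⟨h1, a, b, c, h2, h3, h4, h5⟩ ⟨g1, a', b', c', g2, g3, g4, g5⟩ hle
    obtain ⟨p, r, hx⟩ := span_of (x := x) (y := y) (z := z) (u := x') (by rw [h1, hz])
      (by rw [h1, ← g1]; exact dt_crs_left _ _)
    obtain ⟨q, s, hy⟩ := span_of (x := x) (y := y) (z := z) (u := y') (by rw [h1, hz])
      (by rw [h1, ← g1]; exact dt_crs_right _ _)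
    have hdet : p * s - q * r = 1 := by
      have e1 : dt (crs x' y') z = 1 := by rw [g1, hz]
      rw [hx, hy, crs_comb, h1] at e1
      have e2 : dt ((p * s - r * q) • v) z = (p * s - r * q) * dt v z := by
        simp only [dt, Pi.smul_apply, smul_eq_mul]; ring
      rw [e2, hz] at e1
      linarith
    have e1 : S.B x' x' = 2 * (a * p ^ 2 + b * (p * r) + c * r ^ 2) := by
      rw [hx, Co.B_comb, h2, h3, h4]; ring
    have e2 : S.B x' y' = 2 * a * (p * q) + b * (p * s + q * r) + 2 * c * (r * s) := by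
      rw [hx, hy, Co.B_comb, h2, h3, h4]; ring
    have e3 : S.B y' y' = 2 * (a * q ^ 2 + b * (q * s) + c * s ^ 2) := by
      rw [hy, Co.B_comb, h2, h3, h4]; ring
    rcases red_unique hn (hn3 a) h5 g5 hdet (by linarith) (by linarith) (by linarith)
      (by linarith) with ⟨rfl, rfl, rfl, rfl⟩ | ⟨rfl, rfl, rfl, rfl⟩
    · left; constructor
      · rw [hx]; simp
      · rw [hy]; simp
    · right; constructor
      · rw [hx]; simp
      · rw [hy]; simp
  rcases le_total (S.B x' x') (S.B x x) with hle | hle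
  · exact main x y x' y' h h' hle
  · rcases main x' y' x y h' h hle with ⟨h1, h2⟩ | ⟨h1, h2⟩
    · exact Or.inl ⟨h1.symm, h2.symm⟩
    · exact Or.inr ⟨by rw [h1, neg_neg], by rw [h2, neg_neg]⟩

/-- existence of reduced bases -/
theorem rb_exists (hpos : S.Pos) {v : V} (hv : v ≠ 0)
    (hev : ∀ u : V, dt v u = 0 → Even (S.B u u)) (hodd : Odd (S.nm v)) : ∃ x y : V, S.RB v x y := by
  have key : ∀ (N : ℕ) (x y : V), crs x y = v → S.B x x ≤ N → ∃ x y : V, S.RB v x y := by
    intro N
    induction N using Nat.strong_induction_on with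
    | _ N ih =>
      intro x y hxy hN
      have hx0 : x ≠ 0 := by
        rintro rfl
        apply hv
        rw [← hxy]
        apply ext3 <;> simp [crs0, crs1, crs2]
      have hy0 : ∀ y : V, crs x y = v → y ≠ 0 := by
        rintro y hxy rfl
        apply hv
        rw [← hxy]
        apply ext3 <;> simp [crs0, crs1, crs2]
      have hBx := hpos x hx0
      obtain ⟨a, ha⟩ := hev x (by rw [← hxy]; exact dt_crs_left _ _)
      have ha0 : 0 < a := by linarith
      -- shift `y`
      obtain ⟨k, hk1, hk2⟩ : ∃ k : ℤ, -a < S.B x y + 2 * a * k ∧ S.B x y + 2 * a * k ≤ a := by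
        refine ⟨-((S.B x y + a - 1) / (2 * a)), ?_⟩
        have h1 := Int.emod_add_mul_ediv (S.B x y + a - 1) (2 * a)
        have h2 := Int.emod_nonneg (S.B x y + a - 1) (by linarith : 2 * a ≠ 0)
        have h3 := Int.emod_lt_of_pos (S.B x y + a - 1) (by linarith : 0 < 2 * a)
        constructor <;> nlinarith
      obtain ⟨y', hy'⟩ : ∃ y', y' = y + k • x := ⟨_, rfl⟩
      have hxy' : crs x y' = v := by
        rw [← hxy, hy']
        apply ext3 <;> simp only [crs0, crs1, crs2, Pi.add_apply, Pi.smul_apply, smul_eq_mul] <;>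
          ring
      have hb : S.B x y' = S.B x y + 2 * a * k := by
        have : S.B x y' = S.B x y + k * S.B x x := by
          rw [hy']; simp only [Co.B, Pi.add_apply, Pi.smul_apply, smul_eq_mul]; ring
        rw [this, ha]; ring
      rw [← hb] at hk1 hk2
      obtain ⟨c, hc⟩ := hev y' (by rw [← hxy']; exact dt_crs_right _ _)
      have hdisc : 4 * a * c - S.B x y' ^ 2 = S.nm v := by
        rw [← hxy', S.lagrange, ha, hc]; ring
      have hBy := hpos y' (hy0 y' hxy')
      have hbo : S.B x y' ≠ 0 := by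
        intro h0
        rw [h0] at hdisc
        obtain ⟨j, hj⟩ := hodd
        have : (2 : ℤ) ∣ 1 := ⟨2 * (a * c) - j, by linear_combination -hdisc - hj⟩
        norm_num at this
      by_cases hlt : c < a
      · refine ih (2 * c).toNat ?_ y' (-x) ?_ ?_
        · have : ((2 * c).toNat : ℤ) = 2 * c := Int.toNat_of_nonneg (by linarith)
          have h2 : ((2 * c).toNat : ℤ) < N := by rw [this]; linarith
          exact_mod_cast h2
        · rw [← hxy']
          apply ext3 <;> simp only [crs0, crs1, crs2, Pi.neg_apply] <;> ring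
        · rw [Int.toNat_of_nonneg (by linarith)]
          linarith
      push Not at hlt
      rcases lt_or_gt_of_ne hbo with hneg | hpos'
      · by_cases hac : a = c
        · -- swap
          refine ⟨y', -x, ?_, c, -S.B x y', a, by linarith, ?_, ?_, ?_⟩
          · rw [← hxy']
            apply ext3 <;> simp only [crs0, crs1, crs2, Pi.neg_apply] <;> ring
          · simp only [Co.B, Pi.neg_apply]; ring
          · rw [B_neg_neg, ha]; ring
          · refine ⟨by rw [← hdisc]; ring, by linarith, by linarith, by linarith, by linarith,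
              fun _ => by linarith⟩
        · exact ⟨x, y', hxy', a, S.B x y', c, by linarith, rfl, by linarith, hdisc, ha0, hk1, hk2,
            hlt, fun h => absurd h hac⟩
      · exact ⟨x, y', hxy', a, S.B x y', c, by linarith, rfl, by linarith, hdisc, ha0, hk1, hk2,
          hlt, fun _ => hpos'.le⟩
  obtain ⟨x, y, hxy⟩ := exists_crs v
  have h0 : (0 : ℤ) ≤ S.B x x := by
    by_cases hx : x = 0
    · rw [hx]; simp [Co.B]
    · exact (hpos x hx).le
  exact key (S.B x x).toNat x y hxy (by rw [Int.toNat_of_nonneg h0])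

end Pool.Agent.N877.TF
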